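import Pool.Agent.H159R3.Lang.Basic
import Pool.Agent.H159R3.Toric.Analytic

/-!
Lang's question for varieties cut out by few monomials that are high powers.
-/

set_option autoImplicit false

namespace Pool.Agent.H159R3.Lang

open MvPolynomial Pool.Agent.H159R3.NV Pool.Agent.H159R3.Toric
open scoped Topology

/-- Evaluation at a point of a torus orbit vanishes if all graded pieces vanish. -/
theorem eval_graded {R : Type*} [CommRing R] {n : ℕ} (F : MvPolynomial (Fin n) R) (κ : Fin n → R)
    (b : Fin n → ℤ) (hb : ∀ j, 0 ≤ b j) (t : R)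
    (h : ∀ v : ℤ, ∑ α ∈ F.support.filter (fun α => ∑ j, (α j : ℤ) * b j = v),
      F.coeff α * ∏ j, κ j ^ α j = 0) :
    eval (fun j => κ j * t ^ (b j).toNat) F = 0 := by
  classical
  rw [eval_eq']
  have h1 : ∀ α ∈ F.support, F.coeff α * ∏ j, (κ j * t ^ (b j).toNat) ^ α j
      = t ^ (∑ j, (α j : ℤ) * b j).toNat * (F.coeff α * ∏ j, κ j ^ α j) := by
    intro α _
    have h2 : ∏ j, (κ j * t ^ (b j).toNat) ^ α j
        = (∏ j, κ j ^ α j) * t ^ (∑ j, (α j : ℤ) * b j).toNat := by
      have h3 : (∑ j, (α j : ℤ) * b j).toNat = ∑ j, α j * (b j).toNat := by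
        have : ∑ j, (α j : ℤ) * b j = ((∑ j, α j * (b j).toNat : ℕ) : ℤ) := by
          push_cast
          refine Finset.sum_congr rfl fun j _ => ?_
          rw [Int.toNat_of_nonneg (hb j)]
        rw [this, Int.toNat_natCast]
      rw [h3, ← Finset.prod_pow_eq_pow_sum, ← Finset.prod_mul_distrib]
      refine Finset.prod_congr rfl fun j _ => ?_
      rw [mul_pow, ← pow_mul, mul_comm (b j).toNat]
    rw [h2]
    ring
  rw [Finset.sum_congr rfl h1]
  rw [← Finset.sum_fiberwise_of_maps_to (s := F.support)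
    (t := F.support.image (fun α => ∑ j, (α j : ℤ) * b j))
    (g := fun α => ∑ j, (α j : ℤ) * b j) (fun α hα => Finset.mem_image_of_mem _ hα)]
  apply Finset.sum_eq_zero
  intro v _
  have h4 : ∀ α ∈ F.support.filter (fun α => ∑ j, (α j : ℤ) * b j = v),
      t ^ (∑ j, (α j : ℤ) * b j).toNat * (F.coeff α * ∏ j, κ j ^ α j)
        = t ^ v.toNat * (F.coeff α * ∏ j, κ j ^ α j) := by
    intro α hα
    rw [(Finset.mem_filter.mp hα).2]
  rw [Finset.sum_congr rfl h4, ← Finset.mul_sum, h v, mul_zero]

/-- two entire functions with vanishing Wronskian are proportional -/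
theorem proportional {g h : ℂ → ℂ} (hg : Differentiable ℂ g) (hh : Differentiable ℂ h)
    (h0 : ∃ z, h z ≠ 0) (hw : ∀ z, h z * deriv g z - g z * deriv h z = 0) :
    ∃ c : ℂ, ∀ z, g z = c * h z := by
  have hne : (⟨h, hh⟩ : Ent) ≠ 0 := by
    intro he
    obtain ⟨z, hz⟩ := h0
    exact hz (congrFun (congrArg Subtype.val he) z)
  obtain ⟨x, hx⟩ := prop_of_Dv ⟨h, hh⟩ hne ⟨g, hg⟩ (by
    apply Subtype.ext
    funext z
    change g z * deriv h z = h z * deriv g z
    linear_combination - hw z)
  refine ⟨x, fun z => ?_⟩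
  have := congrFun (congrArg Subtype.val hx) z
  exact this

/-- The exponents of `F` are divisible by some `N` that is large compared with the number of
monomials. -/
def PowerSparse {K : Type*} [Field K] {n : ℕ} (F : MvPolynomial (Fin n) K) : Prop :=
  ∃ N : ℕ, 0 < N ∧ (F.support.card - 1) ^ 2 ≤ N ∧ ∀ α ∈ F.support, ∀ j, N ∣ α j

universe u v

/-- A nonconstant entire curve forces a torus curve. -/
theorem torus_curve {K : Type u} [Field K] {ι : Type v} {n : ℕ}
    (F : ι → MvPolynomial (Fin (n + 1)) K) (d : ι → ℕ) (hF : ∀ i, (F i).IsHomogeneous (d i))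
    (hC : ∀ i, PowerSparse (F i)) (σ : K →+* ℂ) (hσ : ¬ Hyperbolic σ F) :
    ∃ (κ : Fin (n + 1) → ℂ) (b : Fin (n + 1) → ℕ) (j k : Fin (n + 1)), κ j ≠ 0 ∧ κ k ≠ 0 ∧
      b j ≠ b k ∧ ∀ i (t : ℂ), eval₂ σ (tpt κ b t) (F i) = 0 := by
  classical
  unfold Hyperbolic at hσ
  push Not at hσ
  obtain ⟨f, hf, hf0, hfF, z1, z2, hz12⟩ := hσ
  have hfj : ∀ j, Differentiable ℂ (fun z => f z j) := fun j => by
    rw [differentiable_pi] at hf
    exact hf j
  have hfd : ∀ j, Differentiable ℂ (deriv (fun z => f z j)) := fun j =>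
    ((hfj j).contDiff (n := 2)).differentiable_deriv_two
  -- a pair of non-proportional coordinates
  have hpair : ∃ j k, ∃ z, f z j * deriv (fun z => f z k) z - f z k * deriv (fun z => f z j) z ≠ 0 := by
    by_contra hcon
    push Not at hcon
    obtain ⟨k, hk⟩ := Function.ne_iff.mp (hf0 0)
    have hk' : f 0 k ≠ 0 := hk
    have hc : ∀ j, ∃ c : ℂ, ∀ z, f z j = c * f z k := fun j =>
      proportional (hfj j) (hfj k) ⟨0, hk'⟩ (fun z => hcon k j z)
    choose c hc using hc
    have hfk : ∀ z, f z k ≠ 0 := by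
      intro z h0
      apply hf0 z
      funext j
      rw [hc j z, h0, mul_zero]
      rfl
    apply hz12 (f z1 k / f z2 k)
    funext j
    rw [Pi.smul_apply, smul_eq_mul, hc j z1, hc j z2]
    have := hfk z2
    field_simp
  obtain ⟨j1, k1, zw, hzw⟩ := hpair
  have hwd : Differentiable ℂ (fun z => f z j1 * deriv (fun z => f z k1) z
      - f z k1 * deriv (fun z => f z j1) z) :=
    ((hfj j1).mul (hfd k1)).sub ((hfj k1).mul (hfd j1))
  have hev : ∀ᶠ z in 𝓝[≠] (0 : ℂ), (∀ j, (∃ z, f z j ≠ 0) → f z j ≠ 0) ∧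
      f z j1 * deriv (fun z => f z k1) z - f z k1 * deriv (fun z => f z j1) z ≠ 0 := by
    refine Filter.Eventually.and ?_ (ev_ne hwd hzw 0)
    rw [Filter.eventually_all]
    intro j
    by_cases hj : ∃ z, f z j ≠ 0
    · obtain ⟨z, hz⟩ := hj
      filter_upwards [ev_ne (hfj j) hz 0] with w hw _
      exact hw
    · exact Filter.Eventually.of_forall fun w hw => absurd hw hj
  obtain ⟨z0, hz0, hz0w⟩ := hev.exists
  have hj1 : f z0 j1 ≠ 0 := by
    apply hz0
    by_contra hcon
    push Not at hcon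
    apply hz0w
    have h1 : (fun z => f z j1) = fun _ => 0 := funext hcon
    rw [hcon z0, h1]
    simp
  have hk1 : f z0 k1 ≠ 0 := by
    apply hz0
    by_contra hcon
    push Not at hcon
    apply hz0w
    have h1 : (fun z => f z k1) = fun _ => 0 := funext hcon
    rw [hcon z0, h1]
    simp
  set u : Fin (n + 1) → ℂ := fun j => deriv (fun z => f z j) z0 / f z0 j with hu
  have hune : ∑ j, (((Pi.single k1 1 - Pi.single j1 1 : Fin (n + 1) → ℤ) j : ℤ) : ℂ) * u j ≠ 0 := by
    have h1 : ∑ j, (((Pi.single k1 1 - Pi.single j1 1 : Fin (n + 1) → ℤ) j : ℤ) : ℂ) * u j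
        = u k1 - u j1 := by
      simp only [Pi.sub_apply, Int.cast_sub, sub_mul]
      rw [Finset.sum_sub_distrib]
      congr 1
      · rw [Finset.sum_eq_single k1]
        · simp
        · intro j _ hj
          simp [hj]
        · simp
      · rw [Finset.sum_eq_single j1]
        · simp
        · intro j _ hj
          simp [hj]
        · simp
    rw [h1]
    intro h0
    apply hz0w
    simp only [hu] at h0
    rw [div_sub_div _ _ hk1 hj1, div_eq_zero_iff] at h0
    rcases h0 with h0 | h0
    · linear_combination h0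
    · exact absurd h0 (mul_ne_zero hk1 hj1)
  obtain ⟨b, hb, hbp⟩ := exists_b u _ hune
  have hbjk : b k1 ≠ b j1 := by
    intro h0
    apply hbp
    simp only [Pi.sub_apply, sub_mul]
    rw [Finset.sum_sub_distrib, Finset.sum_eq_single k1, Finset.sum_eq_single j1]
    · simp [h0]
    · intro j _ hj; simp [hj]
    · simp
    · intro j _ hj; simp [hj]
    · simp
  -- shift the exponents
  set c : ℤ := ∑ j, |b j| with hc
  have hcb : ∀ j, 0 ≤ b j + c := by
    intro j
    have h1 : |b j| ≤ c := Finset.single_le_sum (f := fun j => |b j|)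
      (fun i _ => abs_nonneg _) (Finset.mem_univ j)
    have h2 := neg_abs_le (b j)
    linarith
  refine ⟨f z0, fun j => (b j + c).toNat, k1, j1, hk1, hj1, ?_, ?_⟩
  · intro h0
    have h1 : ((b k1 + c).toNat : ℤ) = ((b j1 + c).toNat : ℤ) := by exact_mod_cast h0
    rw [Int.toNat_of_nonneg (hcb _), Int.toNat_of_nonneg (hcb _)] at h1
    exact hbjk (by linarith)
  · intro i t
    obtain ⟨N, hN, hs, hdiv⟩ := hC i
    have hsupp : (map σ (F i)).support = (F i).support :=
      support_map_of_injective _ σ.injective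
    rw [eval₂_eq_eval_map]
    apply eval_graded (map σ (F i)) (f z0) (fun j => b j + c) hcb t
    intro v
    have h1 := toric (fun j z => f z j) hfj ∅ (by simp) z0 hz0 b hb (map σ (F i)) hN
      (by rw [hsupp]; exact hs) (by rw [hsupp]; exact fun α hα j _ => hdiv α hα j)
      (fun z => by
        have := hfF z i
        rw [eval₂_eq_eval_map] at this
        exact this) (v - c * d i)
    rw [← h1]
    apply Finset.sum_congr _ (fun _ _ => rfl)
    apply Finset.filter_congr
    intro α hα
    rw [hsupp] at hα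
    have hdeg : ∑ j, α j = d i := by
      have := (hF i) (mem_support_iff.mp hα)
      rw [Finsupp.weight_apply] at this
      simpa [Finsupp.sum_fintype] using this
    have h2 : ∑ j, (α j : ℤ) * (b j + c) = ∑ j, (α j : ℤ) * b j + c * d i := by
      simp only [mul_add]
      rw [Finset.sum_add_distrib, ← Finset.sum_mul]
      have : ((∑ j, α j : ℕ) : ℤ) = d i := by rw [hdeg]
      push_cast at this
      rw [this]
      ring
    rw [h2]
    constructor <;> intro h3 <;> linarith

/-- Lang's question for varieties cut out by few monomials that are high powers. -/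
theorem powers (K : Type) [Field K] [NumberField K] {ι : Type} {n : ℕ}
    (F : ι → MvPolynomial (Fin (n + 1)) K) (d : ι → ℕ) (hF : ∀ i, (F i).IsHomogeneous (d i))
    (hC : ∀ i, PowerSparse (F i)) (hσ : ∃ σ : K →+* ℂ, ¬ Hyperbolic σ F) :
    (∃ (L : Type) (_ : Field L) (_ : Algebra K L), FiniteDimensional K L ∧
      (points F L).Infinite) ∧ ∀ τ : K →+* ℂ, ¬ Hyperbolic τ F := by
  obtain ⟨σ, hσ⟩ := hσ
  obtain ⟨κ, b, j, k, hj, hk, hb, h⟩ := torus_curve F d hF hC σ hσ
  let _ := σ.toAlgebra
  have h' : ∀ i (t : ℂ), aeval (tpt κ b t) (F i) = 0 := fun i t => h i t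
  exact ⟨exists_points_infinite F ⟨d, hF⟩ κ b j k hj hk hb h',
    fun τ => not_hyperbolic F κ b j k hj hk hb h' τ⟩

end Pool.Agent.H159R3.Lang
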