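import Mathlib
import Pool.Agent.H952R2.Sextic.CommonZero

/-!
Projective varieties given by forms over a number field: rational points and entire curves.
-/

namespace Pool.Agent.H159R3.Lang

open MvPolynomial
open scoped LinearAlgebra.Projectivization

universe u v

/-- `X(L)`: the `L`-rational points of the closed subvariety `X` of `P^n` over `K` cut out by the
forms `F i` -/
def points {K : Type u} [Field K] {ι : Type v} {n : ℕ} (F : ι → MvPolynomial (Fin (n + 1)) K)
    (L : Type u) [Field L] [Algebra K L] : Set (ℙ L (Fin (n + 1) → L)) :=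
  {P | ∀ i, aeval P.rep (F i) = 0}

/-- `X_σ` is hyperbolic (in Brody's form): every holomorphic map from the complex plane to `X_σ`,
given by entire functions without common zeros, is constant. -/
def Hyperbolic {K : Type u} [Field K] {ι : Type v} {n : ℕ} (σ : K →+* ℂ)
    (F : ι → MvPolynomial (Fin (n + 1)) K) : Prop :=
  ∀ f : ℂ → Fin (n + 1) → ℂ, Differentiable ℂ f → (∀ z, f z ≠ 0) →
    (∀ z i, eval₂ σ (f z) (F i) = 0) → ∀ z w, ∃ c : ℂ, f z = c • f w

/-- the point with coordinates `κ j * t ^ b j` -/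
def tpt {n : ℕ} {R : Type*} [CommSemiring R] (κ : Fin (n + 1) → R) (b : Fin (n + 1) → ℕ) (t : R) :
    Fin (n + 1) → R := fun j => κ j * t ^ b j

section

variable {K : Type u} [Field K] {ι : Type v} {n : ℕ} (F : ι → MvPolynomial (Fin (n + 1)) K)

/-- generic version of `F i (κ t ^ b)` -/
noncomputable def gen (b : Fin (n + 1) → ℕ) (p : MvPolynomial (Fin (n + 1)) K) :
    Polynomial (MvPolynomial (Fin (n + 1)) K) :=
  aeval (fun j => Polynomial.C (X j) * Polynomial.X ^ b j) p

theorem map_gen {M : Type*} [Field M] [Algebra K M] (κ : Fin (n + 1) → M) (b : Fin (n + 1) → ℕ)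
    (p : MvPolynomial (Fin (n + 1)) K) :
    (gen b p).map (aeval κ : MvPolynomial (Fin (n + 1)) K →ₐ[K] M).toRingHom =
      aeval (fun j => Polynomial.C (κ j) * Polynomial.X ^ b j : Fin (n + 1) → Polynomial M) p := by
  unfold gen
  induction p using MvPolynomial.induction_on with
  | C a =>
    rw [algHom_C, algHom_C, Polynomial.algebraMap_apply, Polynomial.map_C]
    simp [Polynomial.algebraMap_apply, MvPolynomial.algebraMap_eq]
  | add p q hp hq => rw [map_add, Polynomial.map_add, hp, hq, map_add]
  | mul_X p j hp =>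
    rw [map_mul, Polynomial.map_mul, hp, map_mul, aeval_X, aeval_X]
    simp

theorem eval_gen {M : Type*} [Field M] [Algebra K M] (κ : Fin (n + 1) → M) (b : Fin (n + 1) → ℕ)
    (t : M) (p : MvPolynomial (Fin (n + 1)) K) :
    Polynomial.eval t (aeval (fun j => Polynomial.C (κ j) * Polynomial.X ^ b j :
      Fin (n + 1) → Polynomial M) p) = aeval (tpt κ b t) p := by
  induction p using MvPolynomial.induction_on with
  | C a =>
    rw [algHom_C, algHom_C, Polynomial.algebraMap_apply, Polynomial.eval_C]
  | add p q hp hq => rw [map_add, Polynomial.eval_add, hp, hq, map_add]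
  | mul_X p j hp =>
    rw [map_mul, Polynomial.eval_mul, hp, map_mul, aeval_X, aeval_X]
    simp [tpt]

/-- Transfer of a torus curve to an algebraically closed extension of the ground field. -/
theorem transfer_curve {M : Type*} [Field M] [Algebra K M] (κ : Fin (n + 1) → M)
    (b : Fin (n + 1) → ℕ) (j k : Fin (n + 1)) (hj : κ j ≠ 0) (hk : κ k ≠ 0)
    (h : ∀ i (t : M), aeval (tpt κ b t) (F i) = 0) [Infinite M]
    (kb : Type*) [Field kb] [Algebra K kb] [IsAlgClosed kb] :
    ∃ κ' : Fin (n + 1) → kb, κ' j ≠ 0 ∧ κ' k ≠ 0 ∧ ∀ i (t : kb), aeval (tpt κ' b t) (F i) = 0 := by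
  have h1 : ∃ x : Fin (n + 1) → M, (∀ iv : ι × ℕ, aeval x ((gen b (F iv.1)).coeff iv.2) = 0) ∧
      aeval x (X j * X k : MvPolynomial (Fin (n + 1)) K) ≠ 0 := by
    refine ⟨κ, fun iv => ?_, by simp [hj, hk]⟩
    have h2 : aeval (fun j => Polynomial.C (κ j) * Polynomial.X ^ b j :
        Fin (n + 1) → Polynomial M) (F iv.1) = 0 := by
      apply Polynomial.funext
      intro t
      rw [eval_gen, h, Polynomial.eval_zero]
    rw [← map_gen] at h2
    have h3 := congrArg (fun p => Polynomial.coeff p iv.2) h2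
    simpa [Polynomial.coeff_map] using h3
  obtain ⟨x, hx, hx2⟩ := H952R2.Sextic.transfer (kb := kb)
    (fun iv : ι × ℕ => (gen b (F iv.1)).coeff iv.2) (X j * X k) h1
  rw [map_mul, aeval_X, aeval_X] at hx2
  refine ⟨x, left_ne_zero_of_mul hx2, right_ne_zero_of_mul hx2, fun i t => ?_⟩
  rw [← eval_gen, ← map_gen]
  have : (gen b (F i)).map (aeval x : MvPolynomial (Fin (n + 1)) K →ₐ[K] kb).toRingHom = 0 := by
    ext v
    rw [Polynomial.coeff_map, Polynomial.coeff_zero]
    exact hx (i, v)
  rw [this, Polynomial.eval_zero]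

theorem aeval_smul_homog {L : Type*} [Field L] [Algebra K L] {p : MvPolynomial (Fin (n + 1)) K}
    {d : ℕ} (hd : p.IsHomogeneous d) (a : L) (x : Fin (n + 1) → L) :
    aeval (a • x) p = a ^ d * aeval x p := by
  rw [aeval_def, aeval_def, eval₂_eq, eval₂_eq, Finset.mul_sum]
  refine Finset.sum_congr rfl (fun m hm => ?_)
  have hm2 : ∑ j ∈ m.support, m j = d := by
    have := hd (mem_support_iff.mp hm)
    rw [Finsupp.weight_apply] at this
    simpa [Finsupp.sum] using this
  have : ∏ y ∈ m.support, (a • x) y ^ m y = a ^ d * ∏ y ∈ m.support, x y ^ m y := by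
    rw [← hm2, ← Finset.prod_pow_eq_pow_sum, ← Finset.prod_mul_distrib]
    refine Finset.prod_congr rfl (fun y _ => ?_)
    rw [Pi.smul_apply, smul_eq_mul, mul_pow]
  rw [this]; ring

/-- A torus curve over `L` gives infinitely many points. -/
theorem points_infinite (hF : ∃ d : ι → ℕ, ∀ i, (F i).IsHomogeneous (d i))
    {L : Type u} [Field L] [Algebra K L] [CharZero L] (κ : Fin (n + 1) → L)
    (b : Fin (n + 1) → ℕ) (j k : Fin (n + 1)) (hj : κ j ≠ 0) (hk : κ k ≠ 0) (hb : b j ≠ b k)
    (h : ∀ i (t : L), aeval (tpt κ b t) (F i) = 0) : (points F L).Infinite := by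
  obtain ⟨d, hd⟩ := hF
  have hne : ∀ s : ℕ, tpt κ b ((2 : L) ^ s) ≠ 0 := by
    intro s h0
    have := congrFun h0 j
    simp [tpt, hj] at this
  let P : ℕ → ℙ L (Fin (n + 1) → L) := fun s => Projectivization.mk L _ (hne s)
  have hinj : Function.Injective P := by
    intro s s' hs
    rw [Projectivization.mk_eq_mk_iff'] at hs
    obtain ⟨a, ha⟩ := hs
    have h1 := congrFun ha j
    have h2 := congrFun ha k
    simp only [tpt, Pi.smul_apply, smul_eq_mul] at h1 h2
    have h1' : a * ((2 : L) ^ s') ^ b j = ((2 : L) ^ s) ^ b j := by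
      apply mul_left_cancel₀ hj
      linear_combination h1
    have h2' : a * ((2 : L) ^ s') ^ b k = ((2 : L) ^ s) ^ b k := by
      apply mul_left_cancel₀ hk
      linear_combination h2
    have h3 : ((2 : L) ^ s') ^ b j * ((2 : L) ^ s) ^ b k
        = ((2 : L) ^ s') ^ b k * ((2 : L) ^ s) ^ b j := by
      rw [← h1', ← h2']; ring
    rw [← pow_mul, ← pow_mul, ← pow_mul, ← pow_mul, ← pow_add, ← pow_add] at h3
    have h4 : s' * b j + s * b k = s' * b k + s * b j := by
      have h5 : ((2 ^ (s' * b j + s * b k) : ℕ) : L) = ((2 ^ (s' * b k + s * b j) : ℕ) : L) := by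
        push_cast; exact h3
      have h6 := Nat.cast_injective h5
      exact Nat.pow_right_injective (le_refl 2) h6
    have h5 : ((s' : ℤ) - s) * ((b j : ℤ) - b k) = 0 := by
      have : ((s' * b j + s * b k : ℕ) : ℤ) = ((s' * b k + s * b j : ℕ) : ℤ) := by rw [h4]
      push_cast at this
      linear_combination this
    rcases mul_eq_zero.mp h5 with h6 | h6 <;> omega
  refine Set.infinite_of_injective_forall_mem hinj (fun s i => ?_)
  -- the representative
  obtain ⟨a, ha⟩ := Projectivization.exists_smul_eq_mk_rep L _ (hne s)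
  have h1 : (P s).rep = (a : L) • tpt κ b ((2 : L) ^ s) := by
    rw [← ha]; rfl
  rw [h1]
  rw [aeval_smul_homog (hd i), h, mul_zero]

/-- A torus curve over an infinite extension field gives infinitely many points over a
finite extension. -/
theorem exists_points_infinite [CharZero K] (hF : ∃ d : ι → ℕ, ∀ i, (F i).IsHomogeneous (d i))
    {M : Type*} [Field M] [Algebra K M] (κ : Fin (n + 1) → M)
    (b : Fin (n + 1) → ℕ) (j k : Fin (n + 1)) (hj : κ j ≠ 0) (hk : κ k ≠ 0) (hb : b j ≠ b k)
    (h : ∀ i (t : M), aeval (tpt κ b t) (F i) = 0) [Infinite M] :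
    ∃ (L : Type u) (_ : Field L) (_ : Algebra K L), FiniteDimensional K L ∧
      (points F L).Infinite := by
  obtain ⟨κ', hj', hk', h'⟩ := transfer_curve F κ b j k hj hk h (AlgebraicClosure K)
  let L := IntermediateField.adjoin K (Set.range κ')
  have hfin : FiniteDimensional K L := by
    apply IntermediateField.finiteDimensional_adjoin
    intro x _
    exact Algebra.IsIntegral.isIntegral x
  let κL : Fin (n + 1) → L := fun j => ⟨κ' j, IntermediateField.subset_adjoin K _ ⟨j, rfl⟩⟩
  have hc : CharZero L := charZero_of_injective_algebraMap (algebraMap K L).injective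
  refine ⟨L, inferInstance, inferInstance, hfin, points_infinite F hF κL b j k ?_ ?_ hb ?_⟩
  · intro h0; exact hj' (congrArg Subtype.val h0)
  · intro h0; exact hk' (congrArg Subtype.val h0)
  · intro i t
    have h1 := h' i (algebraMap L (AlgebraicClosure K) t)
    apply (algebraMap L (AlgebraicClosure K)).injective
    rw [map_zero, ← h1, ← aeval_algebraMap_apply]
    congr 2

/-- A torus curve over some infinite field gives an entire curve in every complex fibre. -/
theorem not_hyperbolic {M : Type*} [Field M] [Algebra K M] (κ : Fin (n + 1) → M)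
    (b : Fin (n + 1) → ℕ) (j k : Fin (n + 1)) (hj : κ j ≠ 0) (hk : κ k ≠ 0) (hb : b j ≠ b k)
    (h : ∀ i (t : M), aeval (tpt κ b t) (F i) = 0) [Infinite M] (σ : K →+* ℂ) :
    ¬ Hyperbolic σ F := by
  let _ := σ.toAlgebra
  obtain ⟨κ', hj', hk', h'⟩ := transfer_curve F κ b j k hj hk h ℂ
  intro hyp
  let f : ℂ → Fin (n + 1) → ℂ := fun z => tpt κ' b (Complex.exp z)
  have hf : Differentiable ℂ f := by
    rw [differentiable_pi]
    intro i
    exact (differentiable_const _).mul (Complex.differentiable_exp.pow _)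
  have hf0 : ∀ z, f z ≠ 0 := by
    intro z h0
    have := congrFun h0 j
    simp [f, tpt, hj', Complex.exp_ne_zero] at this
  obtain ⟨c, hc⟩ := hyp f hf hf0 (fun z i => h' i _) (1 / ((b j : ℂ) - b k)) 0
  have h1 := congrFun hc j
  have h2 := congrFun hc k
  simp only [f, tpt, Pi.smul_apply, smul_eq_mul, Complex.exp_zero, one_pow, mul_one] at h1 h2
  rw [← Complex.exp_nat_mul] at h1 h2
  have h1' : Complex.exp ((b j : ℂ) * (1 / ((b j : ℂ) - b k))) = c := by
    apply mul_left_cancel₀ hj'
    linear_combination h1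
  have h2' : Complex.exp ((b k : ℂ) * (1 / ((b j : ℂ) - b k))) = c := by
    apply mul_left_cancel₀ hk'
    linear_combination h2
  have hbne : (b j : ℂ) - b k ≠ 0 := by
    rw [sub_ne_zero]
    exact_mod_cast hb
  have h3 : Complex.exp ((b j : ℂ) * (1 / ((b j : ℂ) - b k)))
      = Complex.exp ((b k : ℂ) * (1 / ((b j : ℂ) - b k))) * Complex.exp 1 := by
    rw [← Complex.exp_add]
    congr 1
    field_simp
    ring
  rw [h1', h2'] at h3
  have hc0 : c ≠ 0 := by rw [← h1']; exact Complex.exp_ne_zero _
  have h4 : Complex.exp 1 = 1 := by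
    apply mul_left_cancel₀ hc0
    rw [← h3, mul_one]
  have h5 : Real.exp 1 = 1 := by
    have : ((Real.exp 1 : ℝ) : ℂ) = 1 := by rw [Complex.ofReal_exp]; simpa using h4
    exact_mod_cast this
  have := Real.add_one_lt_exp (x := 1) one_ne_zero
  linarith

end

end Pool.Agent.H159R3.Lang
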