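import Pool.Agent.H159R3.Lang.Basic
import Pool.Agent.H159R3.Toric.Spec

/-!
Lines in projective varieties over number fields and in their complex fibres.
-/

set_option autoImplicit false

namespace Pool.Agent.H159R3.Lang

open MvPolynomial
open scoped LinearAlgebra.Projectivization

universe u v

/-- the line through `p` and `q` lies in the zero set of the forms `F i` -/
def OnLine {K : Type u} [Field K] {ι : Type v} {n : ℕ} (F : ι → MvPolynomial (Fin (n + 1)) K)
    {L : Type*} [Field L] [Algebra K L] (p q : Fin (n + 1) → L) : Prop :=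
  ∀ i (s t : L), aeval (s • p + t • q) (F i) = 0

section

variable {K : Type u} [Field K] {ι : Type v} {n : ℕ} (F : ι → MvPolynomial (Fin (n + 1)) K)

theorem extend_one {L : Type*} [Field L] [Algebra K L] [Infinite K] (p q : Fin (n + 1) → L)
    (G : MvPolynomial (Fin (n + 1)) K)
    (h : ∀ t : K, aeval (p + algebraMap K L t • q) G = 0) (t : L) : aeval (p + t • q) G = 0 := by
  let g : Polynomial L := aeval (fun j => Polynomial.C (p j) + Polynomial.X * Polynomial.C (q j)) G
  have heval : ∀ t : L, Polynomial.eval t g = aeval (p + t • q) G := by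
    intro t
    have h1 : Polynomial.eval t g = (Polynomial.aeval t : Polynomial L →ₐ[L] L) g := by
      rw [Polynomial.coe_aeval_eq_eval]
    rw [h1]
    simp only [g]
    change ((Polynomial.aeval t : Polynomial L →ₐ[L] L).restrictScalars K) _ = _
    rw [comp_aeval_apply]
    congr 2
    funext j
    simp only [AlgHom.coe_restrictScalars', map_add, map_mul, Polynomial.aeval_C,
      Polynomial.aeval_X, Algebra.algebraMap_self, RingHom.id_apply, Pi.add_apply, Pi.smul_apply,
      smul_eq_mul]
  have hg : g = 0 := by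
    apply Polynomial.eq_zero_of_infinite_isRoot
    refine Set.infinite_of_injective_forall_mem (f := fun t : K => algebraMap K L t)
      (algebraMap K L).injective ?_
    intro t
    change Polynomial.IsRoot g _
    rw [Polynomial.IsRoot.def, heval]
    exact h t
  rw [← heval, hg, Polynomial.eval_zero]

theorem extend_two {L : Type*} [Field L] [Algebra K L] [Infinite K] (p q : Fin (n + 1) → L)
    (G : MvPolynomial (Fin (n + 1)) K)
    (h : ∀ s t : K, aeval (algebraMap K L s • p + algebraMap K L t • q) G = 0) (s t : L) :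
    aeval (s • p + t • q) G = 0 := by
  have h1 : ∀ (s : K) (t : L), aeval (algebraMap K L s • p + t • q) G = 0 := fun s t =>
    extend_one _ q G (h s) t
  have h2 := extend_one (t • q) p G (fun s => by
    rw [add_comm (t • q) (algebraMap K L s • p)]; exact h1 s t) s
  rw [add_comm (s • p) (t • q)]
  exact h2

theorem li_of_minor {L : Type*} [Field L] (p q : Fin (n + 1) → L) (j k : Fin (n + 1))
    (h : p j * q k - p k * q j ≠ 0) : LinearIndependent L ![p, q] := by
  rw [LinearIndependent.pair_iff]
  intro s t hst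
  have h1 : s * p j + t * q j = 0 := congrFun hst j
  have h2 : s * p k + t * q k = 0 := congrFun hst k
  constructor
  · have : s * (p j * q k - p k * q j) = 0 := by linear_combination q k * h1 - q j * h2
    exact (mul_eq_zero.mp this).resolve_right h
  · have : t * (p j * q k - p k * q j) = 0 := by linear_combination p j * h2 - p k * h1
    exact (mul_eq_zero.mp this).resolve_right h

theorem transfer_line [Infinite K] {M : Type*} [Field M] [Algebra K M] (p q : Fin (n + 1) → M)
    (j k : Fin (n + 1)) (hjk : p j * q k - p k * q j ≠ 0) (h : OnLine F p q)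
    (kb : Type*) [Field kb] [Algebra K kb] [IsAlgClosed kb] :
    ∃ p' q' : Fin (n + 1) → kb, p' j * q' k - p' k * q' j ≠ 0 ∧ OnLine F p' q' := by
  let P : ι × K × K → MvPolynomial (Fin (n + 1) ⊕ Fin (n + 1)) K := fun x =>
    aeval (fun j => C x.2.1 * X (Sum.inl j) + C x.2.2 * X (Sum.inr j)) (F x.1)
  have hP : ∀ (L : Type _) [Field L] [Algebra K L] (y : Fin (n + 1) ⊕ Fin (n + 1) → L)
      (x : ι × K × K), aeval y (P x) = aeval (algebraMap K L x.2.1 • (fun j => y (Sum.inl j))
        + algebraMap K L x.2.2 • (fun j => y (Sum.inr j))) (F x.1) := by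
    intro L _ _ y x
    simp only [P]
    rw [comp_aeval_apply]
    congr 2
    funext j
    simp [MvPolynomial.algebraMap_eq, Algebra.smul_def]
  have hP' : ∀ (L : Type _) [Field L] [Algebra K L] (y : Fin (n + 1) ⊕ Fin (n + 1) → L)
      (x : ι × K × K), aeval y (P x) = aeval (algebraMap K L x.2.1 • (fun j => y (Sum.inl j))
        + algebraMap K L x.2.2 • (fun j => y (Sum.inr j))) (F x.1) := by
    intro L _ _ y x
    simp only [P]
    rw [comp_aeval_apply]
    congr 2
    funext j
    simp [MvPolynomial.algebraMap_eq, Algebra.smul_def]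
  obtain ⟨y, hy, hy2⟩ := H952R2.Sextic.transfer (kb := kb) P
    (X (Sum.inl j) * X (Sum.inr k) - X (Sum.inl k) * X (Sum.inr j))
    ⟨Sum.elim p q, fun x => by
      rw [hP M]
      exact h x.1 _ _, by simpa using hjk⟩
  refine ⟨fun j => y (Sum.inl j), fun j => y (Sum.inr j), by simpa using hy2, ?_⟩
  intro i s t
  apply extend_two
  intro s t
  have := hy (i, s, t)
  rw [hP' kb] at this
  exact this

theorem points_infinite_of_line {L : Type u} [Field L] [Algebra K L] [CharZero L]
    (hF : ∃ d : ι → ℕ, ∀ i, (F i).IsHomogeneous (d i)) (p q : Fin (n + 1) → L)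
    (j k : Fin (n + 1)) (hjk : p j * q k - p k * q j ≠ 0) (h : OnLine F p q) :
    (points F L).Infinite := by
  obtain ⟨d, hd⟩ := hF
  have hne : ∀ s : ℕ, p + (s : L) • q ≠ 0 := by
    intro s h0
    apply hjk
    have h1 : p j + s * q j = 0 := congrFun h0 j
    have h2 : p k + s * q k = 0 := congrFun h0 k
    linear_combination q k * h1 - q j * h2
  let P : ℕ → ℙ L (Fin (n + 1) → L) := fun s => Projectivization.mk L _ (hne s)
  have hinj : Function.Injective P := by
    intro s s' hs
    rw [Projectivization.mk_eq_mk_iff'] at hs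
    obtain ⟨a, ha⟩ := hs
    have h1 : a * (p j + s' * q j) = p j + s * q j := congrFun ha j
    have h2 : a * (p k + s' * q k) = p k + s * q k := congrFun ha k
    have h3 : (1 - a) * (p j * q k - p k * q j) = 0 := by
      linear_combination (-q k) * h1 + q j * h2
    have ha1 : a = 1 := by
      have := (mul_eq_zero.mp h3).resolve_right hjk
      linear_combination -this
    have h4 : ((s' : L) - s) * (p j * q k - p k * q j) = 0 := by
      rw [ha1] at h1 h2
      linear_combination p j * h2 - p k * h1
    have h5 := (mul_eq_zero.mp h4).resolve_right hjk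
    have h6 : (s' : L) = s := sub_eq_zero.mp h5
    exact_mod_cast h6.symm
  refine Set.infinite_of_injective_forall_mem hinj (fun s i => ?_)
  obtain ⟨a, ha⟩ := Projectivization.exists_smul_eq_mk_rep L _ (hne s)
  have h1 : (P s).rep = (a : L) • (p + (s : L) • q) := by
    rw [← ha]; rfl
  rw [h1, aeval_smul_homog (hd i)]
  have h2 := h i 1 s
  rw [one_smul] at h2
  rw [h2, mul_zero]

theorem line_finite [CharZero K] (hF : ∃ d : ι → ℕ, ∀ i, (F i).IsHomogeneous (d i))
    {M : Type*} [Field M] [Algebra K M] (p q : Fin (n + 1) → M)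
    (j k : Fin (n + 1)) (hjk : p j * q k - p k * q j ≠ 0) (h : OnLine F p q) :
    ∃ (L : Type u) (_ : Field L) (_ : Algebra K L), FiniteDimensional K L ∧
      (∃ p q : Fin (n + 1) → L, LinearIndependent L ![p, q] ∧ OnLine F p q) ∧
      (points F L).Infinite := by
  obtain ⟨a, b, hab, hline⟩ := transfer_line F p q j k hjk h (AlgebraicClosure K)
  let S : Set (AlgebraicClosure K) := Set.range a ∪ Set.range b
  let L := IntermediateField.adjoin K S
  have hfinS : S.Finite := (Set.finite_range a).union (Set.finite_range b)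
  have : Finite S := hfinS
  have hfin : FiniteDimensional K L := by
    apply IntermediateField.finiteDimensional_adjoin
    intro x _
    exact Algebra.IsIntegral.isIntegral x
  let aL : Fin (n + 1) → L := fun j => ⟨a j, IntermediateField.subset_adjoin K _ (Or.inl ⟨j, rfl⟩)⟩
  let bL : Fin (n + 1) → L := fun j => ⟨b j, IntermediateField.subset_adjoin K _ (Or.inr ⟨j, rfl⟩)⟩
  have hc : CharZero L := charZero_of_injective_algebraMap (algebraMap K L).injective
  have hlineL : OnLine F aL bL := by
    intro i x y
    have h1 := hline i (algebraMap L (AlgebraicClosure K) x) (algebraMap L (AlgebraicClosure K) y)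
    apply (algebraMap L (AlgebraicClosure K)).injective
    rw [map_zero, ← h1, ← aeval_algebraMap_apply]
    congr 2
  have habL : aL j * bL k - aL k * bL j ≠ 0 := by
    intro h0
    exact hab (congrArg Subtype.val h0)
  exact ⟨L, inferInstance, inferInstance, hfin, ⟨aL, bL, li_of_minor aL bL j k habL, hlineL⟩,
    points_infinite_of_line F hF aL bL j k habL hlineL⟩

theorem not_hyperbolic_of_line [Infinite K] {M : Type*} [Field M] [Algebra K M]
    (p q : Fin (n + 1) → M) (j k : Fin (n + 1)) (hjk : p j * q k - p k * q j ≠ 0)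
    (h : OnLine F p q) (σ : K →+* ℂ) : ¬ Hyperbolic σ F := by
  let _ := σ.toAlgebra
  obtain ⟨a, b, hab, hline⟩ := transfer_line F p q j k hjk h ℂ
  intro hyp
  let f : ℂ → Fin (n + 1) → ℂ := fun z => a + z • b
  have hf : Differentiable ℂ f := by
    rw [differentiable_pi]
    intro i
    exact (differentiable_const _).add (differentiable_id.mul_const _)
  have hf0 : ∀ z, f z ≠ 0 := by
    intro z h0
    apply hab
    have h1 : a j + z * b j = 0 := congrFun h0 j
    have h2 : a k + z * b k = 0 := congrFun h0 k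
    linear_combination b k * h1 - b j * h2
  obtain ⟨c, hc⟩ := hyp f hf hf0 (fun z i => by
    have := hline i 1 z
    rw [one_smul] at this
    exact this) 1 0
  have h1 : a j + 1 * b j = c * (a j + 0 * b j) := congrFun hc j
  have h2 : a k + 1 * b k = c * (a k + 0 * b k) := congrFun hc k
  apply hab
  linear_combination a j * h2 - a k * h1

end

/-- `σ(F)` is a sum of few `d`-th powers of complex linear forms (small Waring rank) -/
def SmallWaring {K : Type*} [Field K] {n : ℕ} (σ : K →+* ℂ) (F : MvPolynomial (Fin (n + 1)) K)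
    (d : ℕ) : Prop :=
  ∃ (s : ℕ) (ℓ : Fin s → Fin (n + 1) → ℂ), (s - 1) ^ 2 ≤ d ∧
    map σ F = ∑ k, (∑ j, C (ℓ k j) * X j) ^ d

/-- A variety cut out by forms of small Waring rank contains the linear span of each of its entire
curves. -/
theorem waring_span {K : Type u} [Field K] {n : ℕ} (σ : K →+* ℂ)
    (G : MvPolynomial (Fin (n + 1)) K) {d : ℕ} (hd : 0 < d) (hG : SmallWaring σ G d)
    (f : ℂ → Fin (n + 1) → ℂ) (hf : Differentiable ℂ f) (hfG : ∀ z, eval₂ σ (f z) G = 0)
    (s t z1 z2 : ℂ) : eval₂ σ (s • f z1 + t • f z2) G = 0 := by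
  classical
  obtain ⟨m, ℓ, hm, hmap⟩ := hG
  have hfj : ∀ j, Differentiable ℂ (fun z => f z j) := fun j => by
    rw [differentiable_pi] at hf
    exact hf j
  have hev : ∀ x : Fin (n + 1) → ℂ, eval₂ σ x G = ∑ k, 1 * (∑ j, ℓ k j * x j) ^ d := by
    intro x
    rw [eval₂_eq_eval_map, hmap, map_sum]
    refine Finset.sum_congr rfl fun k _ => ?_
    rw [map_pow, map_sum, one_mul]
    congr 1
    refine Finset.sum_congr rfl fun j _ => ?_
    rw [map_mul, eval_C, eval_X]
  rw [hev]
  have hlin : ∀ k, ∑ j, ℓ k j * (s • f z1 + t • f z2) j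
      = s * ∑ j, ℓ k j * f z1 j + t * ∑ j, ℓ k j * f z2 j := by
    intro k
    rw [Finset.mul_sum, Finset.mul_sum, ← Finset.sum_add_distrib]
    refine Finset.sum_congr rfl fun j _ => ?_
    simp only [Pi.add_apply, Pi.smul_apply, smul_eq_mul]
    ring
  simp only [hlin]
  refine Toric.spec_sum hd (fun k z => ∑ j, ℓ k j * f z j)
    (fun k => Differentiable.fun_sum fun j _ => (hfj j).const_mul _)
    (fun k => s * ∑ j, ℓ k j * f z1 j + t * ∑ j, ℓ k j * f z2 j) ?_ ?_ Finset.univ
    (by rw [Finset.card_univ, Fintype.card_fin]; exact hm) (fun _ => 1) ?_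
  · intro k hk
    rw [hk z1, hk z2]; ring
  · intro k l a ha
    rw [ha z1, ha z2]; ring
  · intro z
    rw [← hev, hfG z]

/-- Lang's question for varieties cut out by forms of small Waring rank. -/
theorem waring (K : Type) [Field K] [NumberField K] {ι : Type} {n : ℕ}
    (F : ι → MvPolynomial (Fin (n + 1)) K) (d : ι → ℕ) (hF : ∀ i, (F i).IsHomogeneous (d i))
    (hd : ∀ i, 0 < d i) (σ : K →+* ℂ) (hC : ∀ i, SmallWaring σ (F i) (d i))
    (hσ : ¬ Hyperbolic σ F) :
    (∃ (L : Type) (_ : Field L) (_ : Algebra K L), FiniteDimensional K L ∧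
      (∃ p q : Fin (n + 1) → L, LinearIndependent L ![p, q] ∧ OnLine F p q) ∧
      (points F L).Infinite) ∧ ∀ τ : K →+* ℂ, ¬ Hyperbolic τ F := by
  unfold Hyperbolic at hσ
  push Not at hσ
  obtain ⟨f, hf, hf0, hfF, z1, z2, hz12⟩ := hσ
  have hminor : ∃ j k, f z1 j * f z2 k - f z1 k * f z2 j ≠ 0 := by
    by_contra hcon
    push Not at hcon
    obtain ⟨k, hk⟩ := Function.ne_iff.mp (hf0 z2)
    have hk' : f z2 k ≠ 0 := hk
    apply hz12 (f z1 k / f z2 k)
    funext j
    rw [Pi.smul_apply, smul_eq_mul]
    field_simp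
    linear_combination hcon j k
  obtain ⟨j, k, hjk⟩ := hminor
  let _ := σ.toAlgebra
  have hline : OnLine F (f z1) (f z2) := fun i s t =>
    waring_span σ (F i) (hd i) (hC i) f hf (fun z => hfF z i) s t z1 z2
  exact ⟨line_finite F ⟨d, hF⟩ _ _ j k hjk hline,
    fun τ => not_hyperbolic_of_line F _ _ j k hjk hline τ⟩

end Pool.Agent.H159R3.Lang
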