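import Mathlib
import Pool.Agent.H159R3.Lang.Basic

/-!
Sparse systems of forms: the variety contains a line.
-/

namespace Pool.Agent.H159R3.Lang

open MvPolynomial Finset
open scoped LinearAlgebra.Projectivization

universe u v

/-- Turán's theorem for independent sets. -/
theorem exists_indep {N q : ℕ} (hq : 0 < q) (G : SimpleGraph (Fin N)) (μ : ℕ)
    (hG' : G.edgeSet.ncard ≤ μ) (hμ : 2 * q * μ < N * (N - q)) :
    ∃ s : Finset (Fin N), #s = q + 1 ∧ ∀ a ∈ s, ∀ b ∈ s, a ≠ b → ¬ G.Adj a b := by
  classical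
  have hG : #G.edgeFinset ≤ μ := by
    rw [Set.ncard_eq_toFinset_card'] at hG'
    exact hG'
  by_contra hcon
  push Not at hcon
  have hqN : q < N := by
    by_contra h
    have : N - q = 0 := by omega
    rw [this] at hμ
    omega
  have cf : Gᶜ.CliqueFree (q + 1) := by
    intro s hs
    obtain ⟨a, ha, b, hb, hab, hadj⟩ := hcon s hs.card_eq
    have := hs.isClique ha hb hab
    rw [SimpleGraph.compl_adj] at this
    exact this.2 hadj
  have h1 : 2 * q * #Gᶜ.edgeFinset ≤ (q - 1) * N ^ 2 := by
    obtain ⟨H, _, maxH⟩ := SimpleGraph.exists_isTuranMaximal (V := Fin N) hq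
    have h2 : #Gᶜ.edgeFinset ≤ #H.edgeFinset := maxH.2 cf
    have h3 := ((SimpleGraph.isTuranMaximal_iff_nonempty_iso_turanGraph hq).mp
      maxH).some.card_edgeFinset_eq
    have h4 : ∀ m, m = N → 2 * q * #(SimpleGraph.turanGraph m q).edgeFinset ≤ (q - 1) * N ^ 2 := by
      rintro m rfl
      exact SimpleGraph.mul_card_edgeFinset_turanGraph_le (n := m) (r := q)
    calc 2 * q * #Gᶜ.edgeFinset ≤ 2 * q * #H.edgeFinset := Nat.mul_le_mul_left _ h2
      _ = 2 * q * #(SimpleGraph.turanGraph (Fintype.card (Fin N)) q).edgeFinset := by rw [h3]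
      _ ≤ _ := h4 _ (Fintype.card_fin N)
  have h5 : #G.edgeFinset + #Gᶜ.edgeFinset = N.choose 2 := by
    have h6 := SimpleGraph.card_edgeFinset_top_eq_card_choose_two (V := Fin N)
    rw [Fintype.card_fin] at h6
    rw [← h6, ← Finset.card_union_of_disjoint]
    · congr 1
      ext e
      induction e using Sym2.ind with
      | _ a b =>
        simp only [Finset.mem_union, SimpleGraph.mem_edgeFinset, SimpleGraph.mem_edgeSet,
          SimpleGraph.compl_adj, SimpleGraph.top_adj]
        constructor
        · rintro (h | h)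
          · exact h.ne
          · exact h.1
        · intro h
          by_cases h7 : G.Adj a b
          · exact Or.inl h7
          · exact Or.inr ⟨h, h7⟩
    · rw [Finset.disjoint_left]
      intro e
      induction e using Sym2.ind with
      | _ a b =>
        simp only [SimpleGraph.mem_edgeFinset, SimpleGraph.mem_edgeSet, SimpleGraph.compl_adj]
        tauto
  have h8 : 2 * N.choose 2 = N * (N - 1) := by
    rw [Nat.choose_two_right]
    exact Nat.mul_div_cancel' (Nat.even_mul_pred_self N).two_dvd
  obtain ⟨c, rfl⟩ : ∃ c, N = q + c := ⟨N - q, by omega⟩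
  obtain ⟨q, rfl⟩ : ∃ q', q = q' + 1 := ⟨q - 1, by omega⟩
  have e1 : q + 1 + c - (q + 1) = c := by omega
  have e2 : q + 1 + c - 1 = q + c := by omega
  have e3 : q + 1 - 1 = q := by omega
  rw [e1] at hμ
  rw [e2] at h8
  rw [e3] at h1
  nlinarith [h1, h5, h8, hμ, hG]

section

variable {K : Type u} [Field K] {n : ℕ}

theorem aeval_add_of_split {M : Type*} [Field M] [Algebra K M] (p : MvPolynomial (Fin (n + 1)) K)
    (a b : Fin (n + 1) → M)
    (h : ∀ m ∈ p.support, #m.support = 1 ∨ ∃ j ∈ m.support, a j = 0 ∧ b j = 0)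
    (hab : ∀ j, a j = 0 ∨ b j = 0) : aeval (a + b) p = aeval a p + aeval b p := by
  rw [aeval_def, aeval_def, aeval_def, eval₂_eq, eval₂_eq, eval₂_eq, ← Finset.sum_add_distrib]
  refine Finset.sum_congr rfl (fun m hm => ?_)
  rw [← mul_add]
  congr 1
  rcases h m hm with h1 | ⟨j, hj, ha, hb⟩
  · obtain ⟨j, hj⟩ := Finset.card_eq_one.mp h1
    have hmj : m j ≠ 0 := by
      rw [← Finsupp.mem_support_iff, hj]; simp
    rw [hj, Finset.prod_singleton, Finset.prod_singleton, Finset.prod_singleton, Pi.add_apply]
    rcases hab j with h2 | h2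
    · rw [h2, zero_add, zero_pow hmj, zero_add]
    · rw [h2, add_zero, zero_pow hmj, add_zero]
  · have hmj : m j ≠ 0 := Finsupp.mem_support_iff.mp hj
    rw [Finset.prod_eq_zero hj (by rw [Pi.add_apply, ha, hb, add_zero, zero_pow hmj]),
      Finset.prod_eq_zero hj (by rw [ha, zero_pow hmj]),
      Finset.prod_eq_zero hj (by rw [hb, zero_pow hmj]), add_zero]

/-- a common zero supported on a given set of `r + 1` variables -/
theorem exists_zero_on {r : ℕ} (F : Fin r → MvPolynomial (Fin (n + 1)) K) (d : Fin r → ℕ)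
    (hF : ∀ i, (F i).IsHomogeneous (d i)) (hd : ∀ i, 0 < d i) (A : Finset (Fin (n + 1)))
    (hA : #A = r + 1) (kb : Type*) [Field kb] [Algebra K kb] [IsAlgClosed kb] :
    ∃ a : Fin (n + 1) → kb, a ≠ 0 ∧ (∀ j ∉ A, a j = 0) ∧ ∀ i, aeval a (F i) = 0 := by
  classical
  let φ : MvPolynomial (Fin (n + 1)) K →ₐ[K] MvPolynomial A kb :=
    aeval (fun j => if h : j ∈ A then X (⟨j, h⟩ : A) else 0)
  let ext : (A → kb) → Fin (n + 1) → kb := fun u j => if h : j ∈ A then u ⟨j, h⟩ else 0
  have hev : ∀ u p, eval u (φ p) = aeval (ext u) p := by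
    intro u p
    induction p using MvPolynomial.induction_on with
    | C a =>
      simp only [φ, algHom_C, MvPolynomial.algebraMap_apply, eval_C]
    | add p q hp hq => rw [map_add, map_add, hp, hq, map_add]
    | mul_X p j hp =>
      rw [map_mul, map_mul, hp, map_mul, aeval_X]
      congr 1
      simp only [aeval_X, ext]
      split_ifs <;> simp
  have h0 : ∀ i, eval 0 (φ (F i)) = 0 := by
    intro i
    rw [hev]
    have h1 : ext 0 = (0 : kb) • ext 0 := by
      funext j
      simp [ext]
    rw [h1, aeval_smul_homog (hF i), zero_pow (hd i).ne', zero_mul]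
  have hcard : Fintype.card (Fin r) < Fintype.card A := by
    rw [Fintype.card_fin, Fintype.card_coe, hA]; omega
  obtain ⟨u, hu, hz⟩ := H952R2.Sextic.exists_common_zero hcard (fun i => φ (F i)) h0
  refine ⟨ext u, ?_, ?_, fun i => by rw [← hev]; exact hz i⟩
  · intro h
    apply hu
    funext j
    have := congrFun h j
    simpa [ext] using this
  · intro j hj
    simp [ext, hj]

/-- number of monomials of the forms `F i` that involve at least two variables -/
def mixed {r : ℕ} (F : Fin r → MvPolynomial (Fin (n + 1)) K) : ℕ :=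
  ∑ i, #{m ∈ (F i).support | 2 ≤ #m.support}

theorem exists_diag {r : ℕ} (F : Fin r → MvPolynomial (Fin (n + 1)) K)
    (hμ : 2 * (2 * r + 1) * mixed F < (n + 1) * (n - 2 * r)) :
    ∃ s : Finset (Fin (n + 1)), #s = 2 * r + 2 ∧
      ∀ i, ∀ m ∈ (F i).support, m.support ⊆ s → #m.support ≤ 1 := by
  classical
  let M : Finset (Σ _ : Fin r, (Fin (n + 1) →₀ ℕ)) :=
    Finset.univ.sigma (fun i => {m ∈ (F i).support | 2 ≤ #m.support})
  have hMcard : #M = mixed F := by
    simp only [M, Finset.card_sigma, mixed]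
  have hex : ∀ m : Fin (n + 1) →₀ ℕ, ∃ e : Sym2 (Fin (n + 1)), 2 ≤ #m.support →
      ¬ e.IsDiag ∧ ∀ a ∈ e, a ∈ m.support := by
    intro m
    by_cases h : 2 ≤ #m.support
    · obtain ⟨a, ha, b, hb, hab⟩ := Finset.one_lt_card.mp h
      refine ⟨s(a, b), fun _ => ⟨by simpa using hab, ?_⟩⟩
      intro c hc
      rcases Sym2.mem_iff.mp hc with rfl | rfl
      · exact ha
      · exact hb
    · exact ⟨s(0, 0), fun h' => absurd h' h⟩
  choose pr hpr using hex
  let G : SimpleGraph (Fin (n + 1)) := SimpleGraph.fromEdgeSet ↑(M.image (fun x => pr x.2))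
  have hG : G.edgeSet.ncard ≤ mixed F := by
    rw [← hMcard]
    refine le_trans ?_ (Finset.card_image_le (s := M) (f := fun x => pr x.2))
    rw [← Set.ncard_coe_finset]
    refine Set.ncard_le_ncard ?_ (Finset.finite_toSet _)
    intro e he
    rw [SimpleGraph.edgeSet_fromEdgeSet] at he
    exact he.1
  have h1 : (n + 1) * (n + 1 - (2 * r + 1)) = (n + 1) * (n - 2 * r) := by
    congr 1; omega
  obtain ⟨s, hs, hind⟩ := exists_indep (N := n + 1) (q := 2 * r + 1) (by omega) G (mixed F) hG
    (by rw [h1]; exact hμ)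
  refine ⟨s, by omega, fun i m hm hms => ?_⟩
  by_contra hcon
  have h2 : 2 ≤ #m.support := by omega
  obtain ⟨hd1, hd2⟩ := hpr m h2
  have hmem : pr m ∈ M.image (fun x => pr x.2) := by
    refine Finset.mem_image.mpr ⟨⟨i, m⟩, ?_, rfl⟩
    simp only [M, Finset.mem_sigma, Finset.mem_univ, Finset.mem_filter, true_and]
    exact ⟨hm, h2⟩
  generalize he : pr m = e at hd1 hd2 hmem
  induction e using Sym2.ind with
  | _ a b =>
    have hab : a ≠ b := by simpa using hd1
    refine hind a (hms (hd2 a (by simp))) b (hms (hd2 b (by simp))) hab ?_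
    rw [SimpleGraph.fromEdgeSet_adj]
    exact ⟨by simpa using hmem, hab⟩

/-- The main theorem on sparse systems. -/
theorem sparse [CharZero K] {r : ℕ} (F : Fin r → MvPolynomial (Fin (n + 1)) K) (d : Fin r → ℕ)
    (hF : ∀ i, (F i).IsHomogeneous (d i)) (hd : ∀ i, 0 < d i)
    (hμ : 2 * (2 * r + 1) * mixed F < (n + 1) * (n - 2 * r)) :
    (∃ (L : Type u) (_ : Field L) (_ : Algebra K L), FiniteDimensional K L ∧
      (∃ p q : Fin (n + 1) → L, LinearIndependent L ![p, q] ∧
        ∀ i (s t : L), aeval (s • p + t • q) (F i) = 0) ∧ (points F L).Infinite) ∧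
    ∀ σ : K →+* ℂ, ¬ Hyperbolic σ F := by
  classical
  obtain ⟨s, hs, hdiag⟩ := exists_diag F hμ
  obtain ⟨A, hAs, hA⟩ := Finset.exists_subset_card_eq (s := s) (n := r + 1) (by omega)
  have hB : #(s \ A) = r + 1 := by
    rw [Finset.card_sdiff_of_subset hAs]; omega
  obtain ⟨a, ha0, haA, hFa⟩ := exists_zero_on F d hF hd A hA (AlgebraicClosure K)
  obtain ⟨b, hb0, hbB, hFb⟩ := exists_zero_on F d hF hd (s \ A) hB (AlgebraicClosure K)
  have hab : ∀ j, a j = 0 ∨ b j = 0 := by
    intro j
    by_cases hj : j ∈ A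
    · right; exact hbB j (by simp [hj])
    · left; exact haA j hj
  have hline : ∀ i (x y : AlgebraicClosure K), aeval (x • a + y • b) (F i) = 0 := by
    intro i x y
    rw [aeval_add_of_split, aeval_smul_homog (hF i), aeval_smul_homog (hF i), hFa, hFb, mul_zero,
      mul_zero, add_zero]
    · intro m hm
      by_cases hms : m.support ⊆ s
      · left
        have h1 := hdiag i m hm hms
        have h2 : #m.support ≠ 0 := by
          intro h0
          rw [Finset.card_eq_zero, Finsupp.support_eq_empty] at h0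
          have := hF i (mem_support_iff.mp hm)
          rw [h0, map_zero] at this
          have := hd i
          omega
        omega
      · right
        rw [Finset.not_subset] at hms
        obtain ⟨j, hj, hjs⟩ := hms
        refine ⟨j, hj, ?_, ?_⟩
        · rw [Pi.smul_apply, haA j (fun h => hjs (hAs h)), smul_zero]
        · rw [Pi.smul_apply, hbB j (fun h => hjs (Finset.mem_sdiff.mp h).1), smul_zero]
    · intro j
      rcases hab j with h | h
      · left; rw [Pi.smul_apply, h, smul_zero]
      · right; rw [Pi.smul_apply, h, smul_zero]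
  obtain ⟨j, hj⟩ := Function.ne_iff.mp ha0
  obtain ⟨k, hk⟩ := Function.ne_iff.mp hb0
  rw [Pi.zero_apply] at hj hk
  have hbj : b j = 0 := (hab j).resolve_left hj
  have hak : a k = 0 := (hab k).resolve_right hk
  have hli : ∀ (L : Type u) [Field L] (p q : Fin (n + 1) → L), p j ≠ 0 → q j = 0 → p k = 0 →
      q k ≠ 0 → LinearIndependent L ![p, q] := by
    intro L _ p q h1 h2 h3 h4
    rw [LinearIndependent.pair_iff]
    intro x y hxy
    have e1 := congrFun hxy j
    have e2 := congrFun hxy k
    simp only [Pi.add_apply, Pi.smul_apply, smul_eq_mul, Pi.zero_apply, h2, h3, mul_zero, add_zero,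
      zero_add] at e1 e2
    exact ⟨(mul_eq_zero.mp e1).resolve_right h1, (mul_eq_zero.mp e2).resolve_right h4⟩
  -- the torus curve
  let bb : Fin (n + 1) → ℕ := fun i => if a i = 0 then 1 else 0
  have htpt : ∀ t : AlgebraicClosure K, tpt (a + b) bb t = (1 : AlgebraicClosure K) • a + t • b := by
    intro t
    funext i
    simp only [tpt, bb, Pi.add_apply, Pi.smul_apply, smul_eq_mul, one_mul]
    by_cases h : a i = 0
    · simp [h]; ring
    · have : b i = 0 := (hab i).resolve_left h
      simp [h, this]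
  have hcurve : ∀ i (t : AlgebraicClosure K), aeval (tpt (a + b) bb t) (F i) = 0 := by
    intro i t
    rw [htpt]; exact hline i 1 t
  have hκj : (a + b) j ≠ 0 := by simp [hbj, hj]
  have hκk : (a + b) k ≠ 0 := by simp [hak, hk]
  have hbb : bb j ≠ bb k := by simp [bb, hj, hak]
  refine ⟨?_, fun σ => not_hyperbolic F (a + b) bb j k hκj hκk hbb hcurve σ⟩
  -- descend to a finite extension
  let S : Set (AlgebraicClosure K) := Set.range a ∪ Set.range b
  let L := IntermediateField.adjoin K S
  have hfinS : S.Finite := (Set.finite_range a).union (Set.finite_range b)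
  have : Finite S := hfinS
  have hfin : FiniteDimensional K L := by
    apply IntermediateField.finiteDimensional_adjoin
    intro x _
    exact Algebra.IsIntegral.isIntegral x
  let aL : Fin (n + 1) → L := fun j => ⟨a j, IntermediateField.subset_adjoin K _ (Or.inl ⟨j, rfl⟩)⟩
  let bL : Fin (n + 1) → L := fun j => ⟨b j, IntermediateField.subset_adjoin K _ (Or.inr ⟨j, rfl⟩)⟩
  have hc : CharZero L := charZero_of_injective_algebraMap (algebraMap K L).injective
  have hlineL : ∀ i (x y : L), aeval (x • aL + y • bL) (F i) = 0 := by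
    intro i x y
    have h1 := hline i (algebraMap L (AlgebraicClosure K) x) (algebraMap L (AlgebraicClosure K) y)
    apply (algebraMap L (AlgebraicClosure K)).injective
    rw [map_zero, ← h1, ← aeval_algebraMap_apply]
    congr 2
  refine ⟨L, inferInstance, inferInstance, hfin, ⟨aL, bL, ?_, hlineL⟩, ?_⟩
  · apply hli
    · intro h; exact hj (congrArg Subtype.val h)
    · exact Subtype.ext hbj
    · exact Subtype.ext hak
    · intro h; exact hk (congrArg Subtype.val h)
  · refine points_infinite F ⟨d, hF⟩ (aL + bL) bb j k ?_ ?_ hbb ?_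
    · intro h; exact hκj (congrArg Subtype.val h)
    · intro h; exact hκk (congrArg Subtype.val h)
    · intro i t
      have : tpt (aL + bL) bb t = (1 : L) • aL + t • bL := by
        funext l
        apply Subtype.ext
        have := congrFun (htpt (t : AlgebraicClosure K)) l
        simpa [tpt, aL, bL] using this
      rw [this]; exact hlineL i 1 t

end

end Pool.Agent.H159R3.Lang
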